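import Mathlib

set_option autoImplicit false

namespace Pool.Agent.X75.SK

open Finset Equiv

lemma perm3_sum {A : Type*} [AddCommMonoid A] (F : Perm (Fin 3) → A) :
    ∑ w, F w = F 1 + F (swap 0 1) + F (swap 0 2) + F (swap 1 2) + F (swap 0 1 * swap 1 2) +
      F (swap 1 2 * swap 0 1) := by
  have h : (univ : Finset (Perm (Fin 3))) =
      {1, swap 0 1, swap 0 2, swap 1 2, swap 0 1 * swap 1 2, swap 1 2 * swap 0 1} := by decide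
  rw [h, sum_insert (by decide), sum_insert (by decide), sum_insert (by decide),
    sum_insert (by decide), sum_insert (by decide), sum_singleton]
  simp only [add_assoc]

section ring

variable {A : Type*} [CommRing A]

/-- the Vandermonde product -/
def vd (x : Fin 3 → A) : A := (x 0 - x 1) * (x 0 - x 2) * (x 1 - x 2)

/-- the numerator -/
def num (x : Fin 3 → A) (t : A) (a b c : ℕ) : A :=
  x 0 ^ a * x 1 ^ b * x 2 ^ c * ((x 0 - t * x 1) * (x 0 - t * x 2) * (x 1 - t * x 2)) -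
  x 1 ^ a * x 0 ^ b * x 2 ^ c * ((x 1 - t * x 0) * (x 1 - t * x 2) * (x 0 - t * x 2)) -
  x 2 ^ a * x 1 ^ b * x 0 ^ c * ((x 2 - t * x 1) * (x 2 - t * x 0) * (x 1 - t * x 0)) -
  x 0 ^ a * x 2 ^ b * x 1 ^ c * ((x 0 - t * x 2) * (x 0 - t * x 1) * (x 2 - t * x 1)) +
  x 1 ^ a * x 2 ^ b * x 0 ^ c * ((x 1 - t * x 2) * (x 1 - t * x 0) * (x 2 - t * x 0)) +
  x 2 ^ a * x 0 ^ b * x 1 ^ c * ((x 2 - t * x 0) * (x 2 - t * x 1) * (x 0 - t * x 1))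

def m6 (x : Fin 3 → A) : A := x 0 ^ 6 + x 1 ^ 6 + x 2 ^ 6
def m51 (x : Fin 3 → A) : A := x 0 ^ 5 * x 1 + x 0 ^ 5 * x 2 + x 1 ^ 5 * x 0 + x 1 ^ 5 * x 2 +
  x 2 ^ 5 * x 0 + x 2 ^ 5 * x 1
def m42 (x : Fin 3 → A) : A := x 0 ^ 4 * x 1 ^ 2 + x 0 ^ 4 * x 2 ^ 2 + x 1 ^ 4 * x 0 ^ 2 +
  x 1 ^ 4 * x 2 ^ 2 + x 2 ^ 4 * x 0 ^ 2 + x 2 ^ 4 * x 1 ^ 2
def m411 (x : Fin 3 → A) : A := x 0 ^ 4 * x 1 * x 2 + x 1 ^ 4 * x 0 * x 2 + x 2 ^ 4 * x 0 * x 1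
def m33 (x : Fin 3 → A) : A := x 0 ^ 3 * x 1 ^ 3 + x 0 ^ 3 * x 2 ^ 3 + x 1 ^ 3 * x 2 ^ 3
def m321 (x : Fin 3 → A) : A := x 0 ^ 3 * x 1 ^ 2 * x 2 + x 0 ^ 3 * x 2 ^ 2 * x 1 +
  x 1 ^ 3 * x 0 ^ 2 * x 2 + x 1 ^ 3 * x 2 ^ 2 * x 0 + x 2 ^ 3 * x 0 ^ 2 * x 1 +
  x 2 ^ 3 * x 1 ^ 2 * x 0
def m222 (x : Fin 3 → A) : A := x 0 ^ 2 * x 1 ^ 2 * x 2 ^ 2

def P6 (x : Fin 3 → A) (t : A) : A := m6 x + (1 - t) * m51 x + (1 - t) * m42 x +
  (1 - t) ^ 2 * m411 x + (1 - t) * m33 x + (1 - t) ^ 2 * m321 x + (1 - t) ^ 2 * m222 x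
def P51 (x : Fin 3 → A) (t : A) : A := m51 x + (1 - t) * m42 x + (2 - 2 * t) * m411 x +
  (1 - t) * m33 x + (2 - 3 * t + t ^ 2) * m321 x + (2 - 4 * t + 2 * t ^ 2) * m222 x
def P42 (x : Fin 3 → A) (t : A) : A := m42 x + (1 - t) * m411 x + (1 - t) * m33 x +
  (2 - 3 * t + t ^ 2) * m321 x + (3 - 4 * t + 2 * t ^ 2 - t ^ 3) * m222 x
def P411 (x : Fin 3 → A) (t : A) : A := m411 x + (1 - t) * m321 x + (1 - t) ^ 2 * m222 x
def P33 (x : Fin 3 → A) (t : A) : A := m33 x + (1 - t) * m321 x + (1 - t) ^ 2 * m222 x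
def P321 (x : Fin 3 → A) (t : A) : A := m321 x + (2 - t - t ^ 2) * m222 x
def P222 (x : Fin 3 → A) : A := m222 x

lemma num6 (x : Fin 3 → A) (t : A) : num x t 6 0 0 = P6 x t * (1 + t) * vd x := by
  unfold num P6 vd m6 m51 m42 m411 m33 m321 m222; ring
lemma num51 (x : Fin 3 → A) (t : A) : num x t 5 1 0 = P51 x t * 1 * vd x := by
  unfold num P51 vd m51 m42 m411 m33 m321 m222; ring
lemma num42 (x : Fin 3 → A) (t : A) : num x t 4 2 0 = P42 x t * 1 * vd x := by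
  unfold num P42 vd m42 m411 m33 m321 m222; ring
lemma num411 (x : Fin 3 → A) (t : A) : num x t 4 1 1 = P411 x t * (1 + t) * vd x := by
  unfold num P411 vd m411 m321 m222; ring
lemma num33 (x : Fin 3 → A) (t : A) : num x t 3 3 0 = P33 x t * (1 + t) * vd x := by
  unfold num P33 vd m33 m321 m222; ring
lemma num321 (x : Fin 3 → A) (t : A) : num x t 3 2 1 = P321 x t * 1 * vd x := by
  unfold num P321 vd m321 m222; ring
lemma num222 (x : Fin 3 → A) (t : A) :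
    num x t 2 2 2 = P222 x * ((1 + t) * (1 + t + t ^ 2)) * vd x := by
  unfold num P222 vd m222; ring

end ring

section field

variable {F : Type*} [Field F]

lemma Ioi0 : Finset.Ioi (0 : Fin 3) = {1, 2} := by decide
lemma Ioi1 : Finset.Ioi (1 : Fin 3) = {2} := by decide
lemma Ioi2 : Finset.Ioi (2 : Fin 3) = ∅ := by decide

lemma prodIoi (f : Fin 3 → Fin 3 → F) :
    ∏ i, ∏ j ∈ Finset.Ioi i, f i j = f 0 1 * f 0 2 * f 1 2 := by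
  rw [Fin.prod_univ_three, Ioi0, Ioi1, Ioi2, prod_insert (by decide), prod_singleton,
    prod_singleton, prod_empty, mul_one]

/-- The symmetrization in three variables. -/
lemma sym_eq (x : Fin 3 → F) (t : F) (μ : Fin 3 → ℕ) (h01 : x 0 - x 1 ≠ 0) (h02 : x 0 - x 2 ≠ 0)
    (h12 : x 1 - x 2 ≠ 0) :
    (∑ w : Perm (Fin 3), (∏ i, x (w i) ^ μ i) *
      ∏ i, ∏ j ∈ Finset.Ioi i, (x (w i) - t * x (w j)) / (x (w i) - x (w j))) * vd x =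
      num x t (μ 0) (μ 1) (μ 2) := by
  have h10 : x 1 - x 0 ≠ 0 := by rw [← neg_sub]; exact neg_ne_zero.mpr h01
  have h20 : x 2 - x 0 ≠ 0 := by rw [← neg_sub]; exact neg_ne_zero.mpr h02
  have h21 : x 2 - x 1 ≠ 0 := by rw [← neg_sub]; exact neg_ne_zero.mpr h12
  have key : ∀ a b c p q r : F, b ≠ 0 → q ≠ 0 → r ≠ 0 → a / b * (c / q) * (p / r) * (b * q * r) =
      a * c * p := by
    intro a b c p q r hb hq hr
    field_simp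
  have hw : ∀ w : Perm (Fin 3), (∏ i, x (w i) ^ μ i) *
      ∏ i, ∏ j ∈ Finset.Ioi i, (x (w i) - t * x (w j)) / (x (w i) - x (w j)) =
      x (w 0) ^ μ 0 * x (w 1) ^ μ 1 * x (w 2) ^ μ 2 *
        ((x (w 0) - t * x (w 1)) / (x (w 0) - x (w 1)) *
          ((x (w 0) - t * x (w 2)) / (x (w 0) - x (w 2))) *
          ((x (w 1) - t * x (w 2)) / (x (w 1) - x (w 2)))) := by
    intro w
    rw [prodIoi (fun i j => (x (w i) - t * x (w j)) / (x (w i) - x (w j))), Fin.prod_univ_three]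
  rw [Finset.sum_congr rfl (fun w _ => hw w), perm3_sum]
  have e1 : ∀ i : Fin 3, (1 : Perm (Fin 3)) i = i := fun i => rfl
  have a0 : (swap 0 1 : Perm (Fin 3)) 0 = 1 := by decide
  have a1 : (swap 0 1 : Perm (Fin 3)) 1 = 0 := by decide
  have a2 : (swap 0 1 : Perm (Fin 3)) 2 = 2 := by decide
  have b0 : (swap 0 2 : Perm (Fin 3)) 0 = 2 := by decide
  have b1 : (swap 0 2 : Perm (Fin 3)) 1 = 1 := by decide
  have b2 : (swap 0 2 : Perm (Fin 3)) 2 = 0 := by decide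
  have c0 : (swap 1 2 : Perm (Fin 3)) 0 = 0 := by decide
  have c1 : (swap 1 2 : Perm (Fin 3)) 1 = 2 := by decide
  have c2 : (swap 1 2 : Perm (Fin 3)) 2 = 1 := by decide
  have d0 : (swap 0 1 * swap 1 2 : Perm (Fin 3)) 0 = 1 := by decide
  have d1 : (swap 0 1 * swap 1 2 : Perm (Fin 3)) 1 = 2 := by decide
  have d2 : (swap 0 1 * swap 1 2 : Perm (Fin 3)) 2 = 0 := by decide
  have f0 : (swap 1 2 * swap 0 1 : Perm (Fin 3)) 0 = 2 := by decide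
  have f1 : (swap 1 2 * swap 0 1 : Perm (Fin 3)) 1 = 0 := by decide
  have f2 : (swap 1 2 * swap 0 1 : Perm (Fin 3)) 2 = 1 := by decide
  rw [e1, e1, e1, a0, a1, a2, b0, b1, b2, c0, c1, c2, d0, d1, d2, f0, f1, f2]
  unfold vd num
  have k1 := key (x 0 - t * x 1) (x 0 - x 1) (x 0 - t * x 2) (x 1 - t * x 2) (x 0 - x 2)
    (x 1 - x 2) h01 h02 h12
  have k2 := key (x 1 - t * x 0) (x 1 - x 0) (x 1 - t * x 2) (x 0 - t * x 2) (x 1 - x 2)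
    (x 0 - x 2) h10 h12 h02
  have k3 := key (x 2 - t * x 1) (x 2 - x 1) (x 2 - t * x 0) (x 1 - t * x 0) (x 2 - x 0)
    (x 1 - x 0) h21 h20 h10
  have k4 := key (x 0 - t * x 2) (x 0 - x 2) (x 0 - t * x 1) (x 2 - t * x 1) (x 0 - x 1)
    (x 2 - x 1) h02 h01 h21
  have k5 := key (x 1 - t * x 2) (x 1 - x 2) (x 1 - t * x 0) (x 2 - t * x 0) (x 1 - x 0)
    (x 2 - x 0) h12 h10 h20
  have k6 := key (x 2 - t * x 0) (x 2 - x 0) (x 2 - t * x 1) (x 0 - t * x 1) (x 2 - x 1)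
    (x 0 - x 1) h20 h21 h01
  linear_combination (x 0 ^ μ 0 * x 1 ^ μ 1 * x 2 ^ μ 2) * k1 -
    (x 1 ^ μ 0 * x 0 ^ μ 1 * x 2 ^ μ 2) * k2 - (x 2 ^ μ 0 * x 1 ^ μ 1 * x 0 ^ μ 2) * k3 -
    (x 0 ^ μ 0 * x 2 ^ μ 1 * x 1 ^ μ 2) * k4 + (x 1 ^ μ 0 * x 2 ^ μ 1 * x 0 ^ μ 2) * k5 +
    (x 2 ^ μ 0 * x 0 ^ μ 1 * x 1 ^ μ 2) * k6

end field

end Pool.Agent.X75.SK
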