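import Mathlib

set_option autoImplicit false

namespace Pool.Agent.X75.SK

open Finset

section comb

variable {A : Type*} [CommRing A]

/-- sums over functions on `Fin (n + 1)` -/
lemma sum_fin_succ {α : Type*} [Fintype α] [DecidableEq α] {n : ℕ} (F : (Fin (n + 1) → α) → A) :
    ∑ f, F f = ∑ a : α, ∑ g : Fin n → α, F (Matrix.vecCons a g) := by
  rw [← (Fin.consEquiv (fun _ : Fin (n + 1) => α)).sum_comp, Fintype.sum_prod_type]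
  rfl

lemma sum_fin_zero {α : Type*} [Fintype α] [DecidableEq α] (F : (Fin 0 → α) → A) :
    ∑ f, F f = F ![] := by
  rw [Fintype.sum_subsingleton F ![]]

lemma sum_six {α : Type*} [Fintype α] [DecidableEq α] (F : (Fin 6 → α) → A) :
    ∑ f, F f = ∑ a, ∑ b, ∑ c, ∑ d, ∑ e, ∑ g, F ![a, b, c, d, e, g] := by
  rw [sum_fin_succ]
  refine Finset.sum_congr rfl fun a _ => ?_
  rw [sum_fin_succ]
  refine Finset.sum_congr rfl fun b _ => ?_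
  rw [sum_fin_succ]
  refine Finset.sum_congr rfl fun c _ => ?_
  rw [sum_fin_succ]
  refine Finset.sum_congr rfl fun d _ => ?_
  rw [sum_fin_succ]
  refine Finset.sum_congr rfl fun e _ => ?_
  rw [sum_fin_succ]
  refine Finset.sum_congr rfl fun g _ => ?_
  rw [sum_fin_zero]

end comb

/-- row relation -/
def rr (a b : Fin 6) : Bool := a < b || (a == b && a.1 % 2 == 1)
/-- column relation -/
def cc (a b : Fin 6) : Bool := a < b || (a == b && a.1 % 2 == 0)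

/-- the indicator of the core -/
def core (b c e g : Fin 6) : Bool := rr b c && cc b e && cc c g && rr e g

section sym

variable {A : Type*} [CommRing A]

/-- the variable of a letter -/
def yy (x : Fin 3 → A) (a : Fin 6) : A := x ⟨a.1 / 2, by omega⟩

lemma left_sum (x : Fin 3 → A) (b : Fin 6) :
    ∑ a : Fin 6, (if rr a b then yy x a else 0) =
      ![0, 2 * x 0, 2 * x 0, 2 * x 0 + 2 * x 1, 2 * x 0 + 2 * x 1, 2 * x 0 + 2 * x 1 + 2 * x 2] b := by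
  have h0 : yy x 0 = x 0 := rfl
  have h1 : yy x 1 = x 0 := rfl
  have h2 : yy x 2 = x 1 := rfl
  have h3 : yy x 3 = x 1 := rfl
  have h4 : yy x 4 = x 2 := rfl
  have h5 : yy x 5 = x 2 := rfl
  fin_cases b <;>
    simp [Fin.sum_univ_six, rr, h0, h1, h2, h3, h4, h5] <;> ring

lemma right_sum (x : Fin 3 → A) (b : Fin 6) :
    ∑ a : Fin 6, (if rr b a then yy x a else 0) =
      ![x 0 + 2 * x 1 + 2 * x 2, x 0 + 2 * x 1 + 2 * x 2, x 1 + 2 * x 2, x 1 + 2 * x 2,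
        x 2, x 2] b := by
  have h0 : yy x 0 = x 0 := rfl
  have h1 : yy x 1 = x 0 := rfl
  have h2 : yy x 2 = x 1 := rfl
  have h3 : yy x 3 = x 1 := rfl
  have h4 : yy x 4 = x 2 := rfl
  have h5 : yy x 5 = x 2 := rfl
  fin_cases b <;>
    simp [Fin.sum_univ_six, rr, h0, h1, h2, h3, h4, h5] <;> ring

lemma inner_sum (x : Fin 3 → A) (b c : Fin 6) :
    ∑ e : Fin 6, ∑ g : Fin 6, (if cc b e && cc c g && rr e g then yy x e * yy x g else 0) =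
      (![![2 * x 0 ^ 2 + 4 * x 0 * x 1 + 4 * x 0 * x 2 + 2 * x 1 ^ 2 + 4 * x 1 * x 2 + 2 * x 2 ^ 2, 4 * x 0 * x 1 + 4 * x 0 * x 2 + 2 * x 1 ^ 2 + 4 * x 1 * x 2 + 2 * x 2 ^ 2, 4 * x 0 * x 1 + 4 * x 0 * x 2 + 2 * x 1 ^ 2 + 4 * x 1 * x 2 + 2 * x 2 ^ 2, 4 * x 0 * x 2 + 4 * x 1 * x 2 + 2 * x 2 ^ 2, 4 * x 0 * x 2 + 4 * x 1 * x 2 + 2 * x 2 ^ 2, 0],
      ![2 * x 1 ^ 2 + 4 * x 1 * x 2 + 2 * x 2 ^ 2, 2 * x 1 ^ 2 + 4 * x 1 * x 2 + 2 * x 2 ^ 2, 2 * x 1 ^ 2 + 4 * x 1 * x 2 + 2 * x 2 ^ 2, 4 * x 1 * x 2 + 2 * x 2 ^ 2, 4 * x 1 * x 2 + 2 * x 2 ^ 2, 0],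
      ![2 * x 1 ^ 2 + 4 * x 1 * x 2 + 2 * x 2 ^ 2, 2 * x 1 ^ 2 + 4 * x 1 * x 2 + 2 * x 2 ^ 2, 2 * x 1 ^ 2 + 4 * x 1 * x 2 + 2 * x 2 ^ 2, 4 * x 1 * x 2 + 2 * x 2 ^ 2, 4 * x 1 * x 2 + 2 * x 2 ^ 2, 0],
      ![2 * x 2 ^ 2, 2 * x 2 ^ 2, 2 * x 2 ^ 2, 2 * x 2 ^ 2, 2 * x 2 ^ 2, 0],
      ![2 * x 2 ^ 2, 2 * x 2 ^ 2, 2 * x 2 ^ 2, 2 * x 2 ^ 2, 2 * x 2 ^ 2, 0],
      ![0, 0, 0, 0, 0, 0]] : Fin 6 → Fin 6 → A) b c := by
  have h0 : yy x 0 = x 0 := rfl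
  have h1 : yy x 1 = x 0 := rfl
  have h2 : yy x 2 = x 1 := rfl
  have h3 : yy x 3 = x 1 := rfl
  have h4 : yy x 4 = x 2 := rfl
  have h5 : yy x 5 = x 2 := rfl
  fin_cases b <;> fin_cases c <;>
    simp [Fin.sum_univ_six, rr, cc, h0, h1, h2, h3, h4, h5] <;> ring

/-- the sum over all fillings, with the conditions for neighbouring cells -/
lemma total_sum (x : Fin 3 → A) :
    ∑ b : Fin 6, ∑ c : Fin 6, ∑ e : Fin 6, ∑ g : Fin 6, ∑ a : Fin 6, ∑ d : Fin 6,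
      (if rr a b && rr b c && rr c d && rr e g && cc b e && cc c g then
        yy x b * yy x c * yy x e * yy x g * yy x a * yy x d else 0) =
      4 * x 0 ^ 4 * x 1 ^ 2 + 8 * x 0 ^ 4 * x 1 * x 2 + 4 * x 0 ^ 4 * x 2 ^ 2 +
        8 * x 0 ^ 3 * x 1 ^ 3 + 24 * x 0 ^ 3 * x 1 ^ 2 * x 2 + 24 * x 0 ^ 3 * x 1 * x 2 ^ 2 +
        8 * x 0 ^ 3 * x 2 ^ 3 + 4 * x 0 ^ 2 * x 1 ^ 4 + 24 * x 0 ^ 2 * x 1 ^ 3 * x 2 +
        40 * x 0 ^ 2 * x 1 ^ 2 * x 2 ^ 2 + 24 * x 0 ^ 2 * x 1 * x 2 ^ 3 + 4 * x 0 ^ 2 * x 2 ^ 4 +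
        8 * x 0 * x 1 ^ 4 * x 2 + 24 * x 0 * x 1 ^ 3 * x 2 ^ 2 + 24 * x 0 * x 1 ^ 2 * x 2 ^ 3 +
        8 * x 0 * x 1 * x 2 ^ 4 + 4 * x 1 ^ 4 * x 2 ^ 2 + 8 * x 1 ^ 3 * x 2 ^ 3 +
        4 * x 1 ^ 2 * x 2 ^ 4 := by
  have key : ∀ b c : Fin 6, ∑ e : Fin 6, ∑ g : Fin 6, ∑ a : Fin 6, ∑ d : Fin 6,
      (if rr a b && rr b c && rr c d && rr e g && cc b e && cc c g then
        yy x b * yy x c * yy x e * yy x g * yy x a * yy x d else 0) =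
      (if rr b c then yy x b * yy x c else 0) *
        ((∑ a : Fin 6, (if rr a b then yy x a else 0)) *
          (∑ a : Fin 6, (if rr c a then yy x a else 0))) *
        ∑ e : Fin 6, ∑ g : Fin 6,
          (if cc b e && cc c g && rr e g then yy x e * yy x g else 0) := by
    intro b c
    rw [Finset.mul_sum]
    refine Finset.sum_congr rfl fun e _ => ?_
    rw [Finset.mul_sum]
    refine Finset.sum_congr rfl fun g _ => ?_
    rw [Finset.sum_mul_sum, Finset.mul_sum, Finset.sum_mul]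
    refine Finset.sum_congr rfl fun a _ => ?_
    rw [Finset.mul_sum, Finset.sum_mul]
    refine Finset.sum_congr rfl fun d _ => ?_
    cases rr a b <;> cases rr b c <;> cases rr c d <;> cases rr e g <;> cases cc b e <;>
      cases cc c g <;> simp <;> ring
  simp only [key, left_sum, right_sum, inner_sum]
  have h0 : yy x 0 = x 0 := rfl
  have h1 : yy x 1 = x 0 := rfl
  have h2 : yy x 2 = x 1 := rfl
  have h3 : yy x 3 = x 1 := rfl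
  have h4 : yy x 4 = x 2 := rfl
  have h5 : yy x 5 = x 2 := rfl
  simp [Fin.sum_univ_six, rr, h0, h1, h2, h3, h4, h5]
  ring

end sym

end Pool.Agent.X75.SK
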